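import Pool.Agent.Helper62.OP.Defs
import Pool.Agent.Helper87.UG.LossPt
import Pool.Agent.Helper24.UG.Win

/-!
# OP: the integrated kernel difference and the integrated explicit formula (O1, O2a)
-/

set_option autoImplicit false
open MeasureTheory Set Filter Topology
open Pool.Agent.Helper57.Zeta Pool.Agent.Helper57.LH Pool.Agent.Helper57.ED
open Pool.Agent.Helper54.LG (za zb qk SS MM qk_cont qk_bound qk_zero_nonneg qk_neg_right explicit_q)
open Pool.Agent.Helper69.UG (XX NX near far)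
open Pool.Agent.Helper87.UG

namespace Pool.Agent.Helper60.OP

private lemma sinh_le {x : ℝ} (hx : 0 ≤ x) : Real.sinh x ≤ x * Real.cosh x := by
  have hm : MonotoneOn (fun x : ℝ => x * Real.cosh x - Real.sinh x) (Ici 0) := by
    refine monotoneOn_of_deriv_nonneg (convex_Ici 0) (by fun_prop) (by fun_prop) fun x hx => ?_
    rw [interior_Ici] at hx
    have h : HasDerivAt (fun x : ℝ => x * Real.cosh x - Real.sinh x)
        (1 * Real.cosh x + x * Real.sinh x - Real.cosh x) x :=
      ((hasDerivAt_id x).mul (Real.hasDerivAt_cosh x)).sub (Real.hasDerivAt_sinh x)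
    rw [h.deriv]
    have := mul_nonneg (le_of_lt hx) (Real.sinh_nonneg_iff.2 (le_of_lt hx))
    linarith
  have := hm (mem_Ici.2 le_rfl) (mem_Ici.2 hx) hx
  simp only [zero_mul, Real.sinh_zero, sub_zero] at this
  linarith

/-- second derivative of `(1-u)² sinh (α u)` -/
private noncomputable def DD (α u : ℝ) : ℝ :=
  2 * Real.sinh (α * u) - 4 * (1 - u) * (α * Real.cosh (α * u)) + (1 - u) ^ 2 * (α ^ 2 * Real.sinh (α * u))

private lemma DD_cont (α : ℝ) : Continuous (DD α) := by
  unfold DD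
  fun_prop

private lemma parts_s (α b : ℝ) :
    b ^ 2 * (∫ u in (0:ℝ)..1, (1 - u) ^ 2 * Real.sinh (α * u) * Real.sin (b * u)) =
      -∫ u in (0:ℝ)..1, DD α u * Real.sin (b * u) := by
  have hd : ∀ u : ℝ, HasDerivAt (fun u : ℝ => (-2 * ((1 - u) * Real.sinh (α * u)) + (1 - u) ^ 2 * (α * Real.cosh (α * u))) * Real.sin (b * u)
      - (1 - u) ^ 2 * Real.sinh (α * u) * (b * Real.cos (b * u)))
      (b ^ 2 * ((1 - u) ^ 2 * Real.sinh (α * u) * Real.sin (b * u)) + DD α u * Real.sin (b * u)) u := by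
    intro u
    have h1 : HasDerivAt (fun u : ℝ => 1 - u) (-1) u := by
      simpa using (hasDerivAt_id u).const_sub 1
    have ha : HasDerivAt (fun u : ℝ => α * u) α u := by
      simpa using (hasDerivAt_id u).const_mul α
    have hb : HasDerivAt (fun u : ℝ => b * u) b u := by
      simpa using (hasDerivAt_id u).const_mul b
    have e1 := (((h1.mul ha.sinh).const_mul (-2)).add ((h1.pow 2).mul (ha.cosh.const_mul α))).mul hb.sin
    have e2 := ((h1.pow 2).mul ha.sinh).mul (hb.cos.const_mul b)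
    refine (e1.sub e2).congr_deriv ?_
    unfold DD
    simp only [Pi.mul_apply, Pi.pow_apply, Pi.add_apply]
    push_cast
    ring
  have c1 : Continuous fun u : ℝ => (1 - u) ^ 2 * Real.sinh (α * u) * Real.sin (b * u) := by fun_prop
  have c2 : Continuous fun u : ℝ => DD α u * Real.sin (b * u) := (DD_cont α).mul (by fun_prop)
  have key := intervalIntegral.integral_eq_sub_of_hasDerivAt (a := 0) (b := 1)
    (fun u _ => hd u) (((c1.const_mul (b ^ 2)).add c2).intervalIntegrable 0 1)
  rw [intervalIntegral.integral_add ((c1.const_mul (b ^ 2)).intervalIntegrable 0 1)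
    (c2.intervalIntegrable 0 1), intervalIntegral.integral_const_mul] at key
  simp only [sub_self, mul_one, mul_zero, Real.sin_zero, Real.sinh_zero, sub_zero, zero_mul,
    add_zero, ne_eq, OfNat.ofNat_ne_zero, not_false_eq_true, zero_pow] at key
  linarith [key]

private lemma abs_DD_le {a α u : ℝ} (hα : 0 ≤ α) (hαa : α ≤ a) (h0 : 0 ≤ u) (h1 : u ≤ 1) :
    |DD α u| ≤ 6 * a * Real.cosh a + a ^ 2 * Real.cosh α := by
  have ha : 0 ≤ a := hα.trans hαa
  have hu : 0 ≤ 1 - u := by linarith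
  have hau : 0 ≤ α * u := mul_nonneg hα h0
  have hauα : α * u ≤ α := mul_le_of_le_one_right hα h1
  have hc1 : Real.cosh (α * u) ≤ Real.cosh α := by
    rw [Real.cosh_le_cosh, abs_of_nonneg hau, abs_of_nonneg hα]
    exact hauα
  have hc2 : Real.cosh α ≤ Real.cosh a := by
    rw [Real.cosh_le_cosh, abs_of_nonneg hα, abs_of_nonneg ha]
    exact hαa
  have hs0 : 0 ≤ Real.sinh (α * u) := Real.sinh_nonneg_iff.2 hau
  have hs1 := sinh_le hau
  have hs2 : Real.sinh (α * u) ≤ Real.cosh α := by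
    have := Real.sinh_lt_cosh (α * u)
    linarith
  have hc0 := Real.cosh_pos (α * u)
  have e1 : |2 * Real.sinh (α * u)| ≤ 2 * (a * Real.cosh a) := by
    rw [abs_of_nonneg (by positivity)]
    have : α * u * Real.cosh (α * u) ≤ a * Real.cosh a :=
      mul_le_mul (hauα.trans hαa) (hc1.trans hc2) hc0.le ha
    linarith
  have e2 : |4 * (1 - u) * (α * Real.cosh (α * u))| ≤ 4 * (a * Real.cosh a) := by
    rw [abs_of_nonneg (by positivity)]
    have h3 : α * Real.cosh (α * u) ≤ a * Real.cosh a := mul_le_mul hαa (hc1.trans hc2) hc0.le ha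
    have h4 : 0 ≤ α * Real.cosh (α * u) := by positivity
    nlinarith
  have e3 : |(1 - u) ^ 2 * (α ^ 2 * Real.sinh (α * u))| ≤ a ^ 2 * Real.cosh α := by
    rw [abs_of_nonneg (by positivity)]
    have h3 : α ^ 2 * Real.sinh (α * u) ≤ a ^ 2 * Real.cosh α :=
      mul_le_mul (pow_le_pow_left₀ hα hαa 2) hs2 hs0 (by positivity)
    have h4 : (1 - u) ^ 2 ≤ 1 := pow_le_one₀ hu (by linarith)
    calc (1 - u) ^ 2 * (α ^ 2 * Real.sinh (α * u)) ≤ 1 * (a ^ 2 * Real.cosh α) :=
          mul_le_mul h4 h3 (by positivity) zero_le_one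
      _ = _ := one_mul _
  unfold DD
  have := abs_sub (2 * Real.sinh (α * u)) (4 * (1 - u) * (α * Real.cosh (α * u)))
  have h5 := abs_add_le (2 * Real.sinh (α * u) - 4 * (1 - u) * (α * Real.cosh (α * u))) ((1 - u) ^ 2 * (α ^ 2 * Real.sinh (α * u)))
  linarith

/-- the primitive -/
private lemma prim_eq (a b : ℝ) : ∫ x in (0:ℝ)..b, (qk a x - qk 0 x) =
    2 * ∫ α in (0:ℝ)..a, ∫ u in (0:ℝ)..1, (1 - u) ^ 2 * Real.sinh (α * u) * Real.sin (b * u) := by
  have e0 : ∀ x : ℝ, qk a x - qk 0 x =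
      2 * ∫ u in (0:ℝ)..1, (1 - u) ^ 2 * (Real.cosh (a * u) - 1) * Real.cos (x * u) := by
    intro x
    unfold qk
    rw [← mul_sub, ← intervalIntegral.integral_sub]
    · congr 1
      refine intervalIntegral.integral_congr fun u _ => ?_
      simp only [zero_mul, Real.cosh_zero]
      ring
    · apply Continuous.intervalIntegrable
      fun_prop
    · apply Continuous.intervalIntegrable
      fun_prop
  simp_rw [e0]
  rw [intervalIntegral.integral_const_mul]
  congr 1
  rw [intervalIntegral_intervalIntegral_swap]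
  · rw [← intervalIntegral_intervalIntegral_swap (F := fun u α : ℝ => (1 - u) ^ 2 * Real.sinh (α * u) * Real.sin (b * u))]
    · apply intervalIntegral.integral_congr_ae
      filter_upwards [] with u hu
      rw [uIoc_of_le zero_le_one] at hu
      have hu0 : u ≠ 0 := hu.1.ne'
      have h1 : ∫ x in (0:ℝ)..b, (1 - u) ^ 2 * (Real.cosh (a * u) - 1) * Real.cos (x * u) =
          (1 - u) ^ 2 * (Real.cosh (a * u) - 1) * (Real.sin (b * u) / u) := by
        rw [intervalIntegral.integral_const_mul, intervalIntegral.integral_comp_mul_right (fun b => Real.cos b) hu0, integral_cos,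
          zero_mul, Real.sin_zero, sub_zero, smul_eq_mul]
        ring
      have h2 : ∫ α in (0:ℝ)..a, Real.sinh (α * u) = (Real.cosh (a * u) - 1) / u := by
        have h3 := intervalIntegral.integral_eq_sub_of_hasDerivAt (a := 0) (b := a) (f := fun α : ℝ => Real.cosh (α * u) / u)
          (f' := fun α => Real.sinh (α * u)) (fun α _ => by
            have h4 : HasDerivAt (fun α : ℝ => α * u) u α := by
              simpa using (hasDerivAt_id α).mul_const u
            refine (h4.cosh.div_const u).congr_deriv ?_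
            field_simp) (by
            apply Continuous.intervalIntegrable
            fun_prop)
        rw [h3, zero_mul, Real.cosh_zero]
        ring
      have h3 : ∫ α in (0:ℝ)..a, (1 - u) ^ 2 * Real.sinh (α * u) * Real.sin (b * u) =
          (1 - u) ^ 2 * ((Real.cosh (a * u) - 1) / u) * Real.sin (b * u) := by
        rw [intervalIntegral.integral_mul_const, intervalIntegral.integral_const_mul, h2]
      rw [h1, h3]
      ring
    · have hc : Continuous (Function.uncurry fun u α : ℝ => (1 - u) ^ 2 * Real.sinh (α * u) * Real.sin (b * u)) := by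
        unfold Function.uncurry
        fun_prop
      apply (hc.continuousOn.integrableOn_compact (isCompact_uIcc.prod isCompact_uIcc)).mono_set
      exact prod_mono uIoc_subset_uIcc uIoc_subset_uIcc
  · have hc : Continuous (Function.uncurry fun x u : ℝ => (1 - u) ^ 2 * (Real.cosh (a * u) - 1) * Real.cos (x * u)) := by
      unfold Function.uncurry
      fun_prop
    apply (hc.continuousOn.integrableOn_compact (isCompact_uIcc.prod isCompact_uIcc)).mono_set
    exact prod_mono uIoc_subset_uIcc uIoc_subset_uIcc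

private lemma qk_dcont (a : ℝ) : Continuous fun x => qk a x - qk 0 x := (qk_cont a).sub (qk_cont 0)

private lemma prim_le {a : ℝ} (ha : 0 ≤ a) (b : ℝ) :
    |∫ x in (0:ℝ)..b, (qk a x - qk 0 x)| ≤ 20 * a ^ 2 * Real.cosh a * (1 / (1 + b ^ 2)) := by
  have hA : 0 ≤ a ^ 2 * Real.cosh a := by positivity
  have h1 : |∫ x in (0:ℝ)..b, (qk a x - qk 0 x)| ≤ 6 * (a ^ 2 * Real.cosh a) := by
    have h2 : ‖∫ x in (0:ℝ)..b, (qk a x - qk 0 x)‖ ≤ |∫ x in (0:ℝ)..b, 3 * a ^ 2 * Real.cosh a * (1 / (1 + x ^ 2))| := by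
      apply intervalIntegral.norm_integral_le_abs_of_norm_le
      · filter_upwards [] with x
        rw [Real.norm_eq_abs]
        refine (Pool.Agent.Helper24.UG.qk_diff3 a x).trans (le_of_eq ?_)
        ring
      · apply Continuous.intervalIntegrable
        have : Continuous fun x : ℝ => 1 / (1 + x ^ 2) := by
          apply Continuous.div (by fun_prop) (by fun_prop)
          intro x
          positivity
        exact this.const_mul _
    rw [Real.norm_eq_abs, intervalIntegral.integral_const_mul, integral_one_div_one_add_sq, Real.arctan_zero, sub_zero, abs_mul,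
      abs_of_nonneg (by positivity : 0 ≤ 3 * a ^ 2 * Real.cosh a)] at h2
    have h3 : |Real.arctan b| ≤ 2 := by
      rw [abs_le]
      have h4 := Real.arctan_lt_pi_div_two b
      have h5 := Real.neg_pi_div_two_lt_arctan b
      have h6 := Real.pi_le_four
      constructor <;> linarith
    have h4 := mul_le_mul_of_nonneg_left h3 (by positivity : 0 ≤ 3 * a ^ 2 * Real.cosh a)
    linarith
  have h2 : b ^ 2 * |∫ x in (0:ℝ)..b, (qk a x - qk 0 x)| ≤ 14 * (a ^ 2 * Real.cosh a) := by
    have h3 : b ^ 2 * |∫ x in (0:ℝ)..b, (qk a x - qk 0 x)| =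
        2 * |∫ α in (0:ℝ)..a, b ^ 2 * ∫ u in (0:ℝ)..1, (1 - u) ^ 2 * Real.sinh (α * u) * Real.sin (b * u)| := by
      rw [intervalIntegral.integral_const_mul, prim_eq, abs_mul, abs_mul, abs_of_pos (by norm_num : (0:ℝ) < 2),
        abs_of_nonneg (sq_nonneg b)]
      ring
    rw [h3]
    have h4 : ‖∫ α in (0:ℝ)..a, b ^ 2 * ∫ u in (0:ℝ)..1, (1 - u) ^ 2 * Real.sinh (α * u) * Real.sin (b * u)‖ ≤
        ∫ α in (0:ℝ)..a, (6 * a * Real.cosh a + a ^ 2 * Real.cosh α) := by
      apply intervalIntegral.norm_integral_le_of_norm_le ha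
      · refine Eventually.of_forall fun α hα => ?_
        rw [parts_s, norm_neg]
        have h5 := intervalIntegral.norm_integral_le_of_norm_le_const (a := 0) (b := 1)
          (f := fun u => DD α u * Real.sin (b * u)) (C := 6 * a * Real.cosh a + a ^ 2 * Real.cosh α) (fun u hu => by
            rw [uIoc_of_le zero_le_one] at hu
            rw [Real.norm_eq_abs, abs_mul]
            calc |DD α u| * |Real.sin (b * u)| ≤ (6 * a * Real.cosh a + a ^ 2 * Real.cosh α) * 1 :=
                  mul_le_mul (abs_DD_le hα.1.le hα.2 hu.1.le hu.2) (Real.abs_sin_le_one _) (abs_nonneg _) (by positivity)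
              _ = _ := mul_one _)
        rw [sub_zero, abs_one, mul_one] at h5
        exact h5
      · apply Continuous.intervalIntegrable
        fun_prop
    have h5 : ∫ α in (0:ℝ)..a, a ^ 2 * Real.cosh α = a ^ 2 * Real.sinh a := by
      rw [intervalIntegral.integral_const_mul, intervalIntegral.integral_eq_sub_of_hasDerivAt (f := Real.sinh)
        (fun x _ => Real.hasDerivAt_sinh x) (Real.continuous_cosh.intervalIntegrable _ _), Real.sinh_zero, sub_zero]
    rw [Real.norm_eq_abs, intervalIntegral.integral_add (by simp) (by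
      apply Continuous.intervalIntegrable
      fun_prop), intervalIntegral.integral_const, h5, smul_eq_mul, sub_zero] at h4
    have h6 := Real.sinh_lt_cosh a
    have h7 : a ^ 2 * Real.sinh a ≤ a ^ 2 * Real.cosh a := mul_le_mul_of_nonneg_left h6.le (sq_nonneg a)
    have h8 : a * (6 * a * Real.cosh a) = 6 * (a ^ 2 * Real.cosh a) := by ring
    linarith
  rw [mul_one_div, le_div_iff₀ (by positivity)]
  nlinarith

private lemma qk_abs (a x : ℝ) : qk |a| x = qk a x := by
  unfold qk
  congr 1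
  refine intervalIntegral.integral_congr fun u _ => ?_
  congr 2
  rcases abs_choice a with h | h
  · rw [h]
  · rw [h, neg_mul, Real.cosh_neg]

/-- O1: the primitive of the kernel difference -/
theorem qint_diff : ∃ C : ℝ, 0 < C ∧ ∀ a b b' : ℝ,
    |∫ x in b..b', (qk a x - qk 0 x)| ≤ C * a ^ 2 * Real.cosh a * (1 / (1 + b ^ 2) + 1 / (1 + b' ^ 2)) := by
  refine ⟨20, by norm_num, fun a b b' => ?_⟩
  have h1 : ∀ b : ℝ, |∫ x in (0:ℝ)..b, (qk a x - qk 0 x)| ≤ 20 * a ^ 2 * Real.cosh a * (1 / (1 + b ^ 2)) := by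
    intro b
    have h2 := prim_le (abs_nonneg a) b
    rw [sq_abs, Real.cosh_abs] at h2
    simp_rw [qk_abs] at h2
    exact h2
  have h2 : ∫ x in b..b', (qk a x - qk 0 x) =
      (∫ x in (0:ℝ)..b', (qk a x - qk 0 x)) - ∫ x in (0:ℝ)..b, (qk a x - qk 0 x) :=
    (intervalIntegral.integral_interval_sub_left ((qk_dcont a).intervalIntegrable _ _) ((qk_dcont a).intervalIntegrable _ _)).symm
  rw [h2]
  refine (abs_sub _ _).trans ?_
  have h3 := h1 b
  have h4 := h1 b'
  rw [mul_add]
  linarith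

/-- the weight of one zero -/
private lemma wt_le {T c Y : ℝ} (hT : 3 ≤ T) (hc : 0 < c) (hY : 0 < Y) (hYc : Y ≤ c) (t : ℝ) (ρ : ZS) :
    za (XX T c) ρ ^ 2 * Real.cosh (za (XX T c) ρ) * (1 / (1 + zb (XX T c) t ρ ^ 2)) ≤
      Real.cosh 1 * ((Y / c) ^ 2 * nt T c Y t ρ + ft T c Y t ρ) := by
  have hX := XX_pos hT hc
  have hL : 0 < Real.log T := Real.log_pos (by linarith)
  have ha0 : 0 ≤ za (XX T c) ρ := za_nonneg hX _
  have hch := Real.one_le_cosh 1
  set a := za (XX T c) ρ with ha
  have hcosh : 0 < Real.cosh a := Real.cosh_pos _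
  unfold nt ft
  rw [← ha]
  split_ifs with hn
  · have h3 : a ≤ Y / c := by
      rw [ha]
      unfold za XX
      rw [div_mul_eq_mul_div]
      gcongr
    have h4 : Y / c ≤ 1 := (div_le_one hc).2 hYc
    have h5 : Real.cosh a ≤ Real.cosh 1 := by
      rw [Real.cosh_le_cosh, abs_of_nonneg ha0, abs_one]
      linarith
    calc _ ≤ (Y / c) ^ 2 * Real.cosh 1 * (1 / (1 + zb (XX T c) t ρ ^ 2)) := by gcongr
      _ = _ := by ring
  · have h3 : 3 * a ^ 2 * Real.cosh a ≤ Real.exp (2 * a) := sq_cosh_le ha0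
    have h4 : a ^ 2 * Real.cosh a ≤ Real.exp (2 * a) := by
      have : 0 ≤ a ^ 2 * Real.cosh a := by positivity
      linarith
    calc _ ≤ Real.exp (2 * a) * (1 / (1 + zb (XX T c) t ρ ^ 2)) := by gcongr
      _ = 1 * (Real.exp (2 * a) / (1 + zb (XX T c) t ρ ^ 2)) := by ring
      _ ≤ Real.cosh 1 * (Real.exp (2 * a) / (1 + zb (XX T c) t ρ ^ 2)) := by gcongr
      _ = _ := by ring

/-- O2a: the integrated explicit formula -/
theorem inc_pt : ∃ C : ℝ, 0 < C ∧ ∀ T c Y t h : ℝ, 3 ≤ T → 0 < c → 0 < Y → Y ≤ c →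
    |∫ u in t..(t + h), (NX (XX T c) u - (MM (XX T c) u - SS (XX T c) u))| ≤
      C / XX T c * ((Y / c) ^ 2 * (near T c Y t + near T c Y (t + h)) + (far T c Y t + far T c Y (t + h))) := by
  obtain ⟨C, hC, hq⟩ := qint_diff
  refine ⟨C * Real.cosh 1, by positivity, fun T c Y t h hT hc hY hYc => ?_⟩
  have hX := XX_pos hT hc
  set X := XX T c with hXd
  set F : ZS → ℝ → ℝ := fun ρ u => mx ρ * qk 0 (zb X u ρ) - mx ρ * qk (za X ρ) (zb X u ρ) with hF
  set A : ℝ := 3 * (X / 2) ^ 2 * Real.cosh (X / 2) with hA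
  have hA0 : 0 ≤ A := by positivity
  have hbound : ∀ ρ : ZS, ∀ u ∈ uIoc t (t + h), ‖F ρ u‖ ≤ mx ρ * (2 * (1 + (X * h) ^ 2) * A / (1 + zb X t ρ ^ 2)) := by
    intro ρ u hu
    have hm : 0 ≤ mx (ρ : ℂ) := mx_nonneg _
    have h1 : F ρ u = mx ρ * (qk 0 (zb X u ρ) - qk (za X ρ) (zb X u ρ)) := by simp only [hF]; ring
    rw [h1, Real.norm_eq_abs, abs_mul, abs_of_nonneg hm, abs_sub_comm]
    refine mul_le_mul_of_nonneg_left ?_ hm
    have h2 := Pool.Agent.Helper24.UG.qk_diff3 (za X ρ) (zb X u ρ)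
    have h3 : za X ρ ≤ X / 2 := za_le hX ρ
    have h4 : 0 ≤ za X ρ := za_nonneg hX ρ
    have h5 : Real.cosh (za X ρ) ≤ Real.cosh (X / 2) := by
      rw [Real.cosh_le_cosh, abs_of_nonneg h4, abs_of_nonneg (by positivity)]
      exact h3
    have h6 : 3 * za X ρ ^ 2 * Real.cosh (za X ρ) ≤ A := by
      rw [hA]
      gcongr
    have h7 : |u - t| ≤ |h| := by
      rcases mem_uIoc.1 hu with ⟨h8, h9⟩ | ⟨h8, h9⟩
      · rw [abs_of_nonneg (by linarith), abs_of_nonneg (by linarith)]
        linarith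
      · rw [abs_of_nonpos (by linarith), abs_of_nonpos (by linarith)]
        linarith
    have h8 : (X * (t - u)) ^ 2 ≤ (X * h) ^ 2 := by
      rw [mul_pow, mul_pow]
      apply mul_le_mul_of_nonneg_left _ (sq_nonneg X)
      rw [show (t - u) ^ 2 = (u - t) ^ 2 by ring]
      exact sq_le_sq.2 h7
    have h9 : zb X t ρ = zb X u ρ + X * (t - u) := by
      unfold zb
      ring
    have h10 : 1 + zb X t ρ ^ 2 ≤ 2 * (1 + (X * h) ^ 2) * (1 + zb X u ρ ^ 2) := by
      rw [h9]
      set x := zb X u ρ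
      set y := X * (t - u)
      have h11 : (x + y) ^ 2 ≤ 2 * x ^ 2 + 2 * y ^ 2 := by nlinarith [sq_nonneg (x - y)]
      have h12 : 0 ≤ (X * h) ^ 2 * x ^ 2 := by positivity
      nlinarith
    refine h2.trans ?_
    rw [div_le_div_iff₀ (by positivity) (by positivity)]
    calc 3 * za X ρ ^ 2 * Real.cosh (za X ρ) * (1 + zb X t ρ ^ 2) ≤ A * (2 * (1 + (X * h) ^ 2) * (1 + zb X u ρ ^ 2)) :=
          mul_le_mul h6 h10 (by positivity) hA0
      _ = _ := by ring
  have hsum : Summable fun ρ : ZS => mx ρ * (2 * (1 + (X * h) ^ 2) * A / (1 + zb X t ρ ^ 2)) := by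
    refine summable_w (B := 2 * (1 + (X * h) ^ 2) * A) hX t fun ρ => ?_
    rw [abs_of_nonneg (by positivity)]
  have hHS : ∀ u : ℝ, HasSum (fun ρ : ZS => F ρ u) (NX X u - (MM X u - SS X u)) := fun u =>
    (q0_summable hX u).hasSum.sub (explicit_q hX u)
  have hcont : ∀ ρ : ZS, Continuous (F ρ) := by
    intro ρ
    simp only [hF]
    have h1 : Continuous fun u : ℝ => zb X u ρ := by
      unfold zb
      fun_prop
    exact (((qk_cont 0).comp h1).const_mul _).sub (((qk_cont (za X ρ)).comp h1).const_mul _)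
  have h1 := intervalIntegral.hasSum_integral_of_dominated_convergence (a := t) (b := t + h) (μ := volume) (F := F)
    (f := fun u => NX X u - (MM X u - SS X u)) (fun ρ _ => mx ρ * (2 * (1 + (X * h) ^ 2) * A / (1 + zb X t ρ ^ 2)))
    (fun ρ => (hcont ρ).aestronglyMeasurable) (fun ρ => Eventually.of_forall fun u hu => hbound ρ u hu)
    (Eventually.of_forall fun u hu => hsum) (by simp) (Eventually.of_forall fun u _ => hHS u)
  have h2 : ∀ ρ : ZS, ‖∫ u in t..(t + h), F ρ u‖ ≤
      C * Real.cosh 1 / X * ((Y / c) ^ 2 * (mx ρ * nt T c Y t ρ) + mx ρ * ft T c Y t ρ) +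
        C * Real.cosh 1 / X * ((Y / c) ^ 2 * (mx ρ * nt T c Y (t + h) ρ) + mx ρ * ft T c Y (t + h) ρ) := by
    intro ρ
    have hm : 0 ≤ mx (ρ : ℂ) := mx_nonneg _
    have e1 : ∫ u in t..(t + h), F ρ u =
        -(mx ρ * (X⁻¹ * ∫ x in (zb X t ρ)..(zb X (t + h) ρ), (qk (za X ρ) x - qk 0 x))) := by
      have e2 := intervalIntegral.integral_comp_mul_sub (a := t) (b := t + h) (c := X) (fun x => qk (za X ρ) x - qk 0 x)
        hX.ne' (X * (ρ : ℂ).im)
      rw [smul_eq_mul] at e2
      have e3 : ∀ u : ℝ, zb X u ρ = X * u - X * (ρ : ℂ).im := by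
        intro u
        unfold zb
        ring
      rw [e3 t, e3 (t + h), ← e2, ← intervalIntegral.integral_const_mul, ← intervalIntegral.integral_neg]
      apply intervalIntegral.integral_congr
      intro u _
      simp only [hF, e3]
      ring
    rw [e1, norm_neg, Real.norm_eq_abs, abs_mul, abs_of_nonneg hm, abs_mul, abs_of_pos (inv_pos.2 hX)]
    have e2 := hq (za X ρ) (zb X t ρ) (zb X (t + h) ρ)
    have e3 := wt_le hT hc hY hYc t ρ
    have e4 := wt_le hT hc hY hYc (t + h) ρ
    rw [← hXd] at e3 e4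
    have e5 : C * za X ρ ^ 2 * Real.cosh (za X ρ) * (1 / (1 + zb X t ρ ^ 2) + 1 / (1 + zb X (t + h) ρ ^ 2)) ≤
        C * (Real.cosh 1 * ((Y / c) ^ 2 * nt T c Y t ρ + ft T c Y t ρ) + Real.cosh 1 * ((Y / c) ^ 2 * nt T c Y (t + h) ρ + ft T c Y (t + h) ρ)) := by
      have e6 := mul_le_mul_of_nonneg_left (add_le_add e3 e4) hC.le
      refine le_trans (le_of_eq ?_) e6
      ring
    calc mx ρ * (X⁻¹ * |∫ x in (zb X t ρ)..(zb X (t + h) ρ), (qk (za X ρ) x - qk 0 x)|) ≤
          mx ρ * (X⁻¹ * (C * (Real.cosh 1 * ((Y / c) ^ 2 * nt T c Y t ρ + ft T c Y t ρ) +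
            Real.cosh 1 * ((Y / c) ^ 2 * nt T c Y (t + h) ρ + ft T c Y (t + h) ρ)))) := by
          apply mul_le_mul_of_nonneg_left _ hm
          apply mul_le_mul_of_nonneg_left (e2.trans e5) (inv_pos.2 hX).le
      _ = _ := by ring
  have h3 := fun s : ℝ => (near_summable hT hc Y s).hasSum
  have h4 := fun s : ℝ => (far_summable hT hc Y s).hasSum
  have h5 := (((h3 t).mul_left ((Y / c) ^ 2)).add (h4 t)).mul_left (C * Real.cosh 1 / X)
  have h6 := (((h3 (t + h)).mul_left ((Y / c) ^ 2)).add (h4 (t + h))).mul_left (C * Real.cosh 1 / X)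
  have h7 := tsum_of_norm_bounded (h5.add h6) h2
  rw [h1.tsum_eq, Real.norm_eq_abs] at h7
  refine h7.trans (le_of_eq ?_)
  rw [← near_eq, ← far_eq, ← near_eq, ← far_eq]
  ring

end Pool.Agent.Helper60.OP
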